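import Pool.Agent.H67.AT.Targets
import Pool.Agent.H67.AT.Ser

/-! Row LBG of `hat_modules`: the potential of series controls the elementary symmetric sums. -/

set_option autoImplicit false

open Finset PowerSeries Pool.Agent.H67.AT

namespace Pool.Agent.H79.AT

theorem ld_nonneg {Y : Type} [Fintype Y] {a b : Y → ℝ} (ha : ∀ y, 0 ≤ a y) (hb : ∀ y, 0 ≤ b y) :
    0 ≤ ld a b := Finset.sum_nonneg fun y _ => mul_nonneg (ha y) (hb y)

theorem pf_LBG (hLIN : T_LIN) : T_LBG := by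
  intro R Y T _ _ _ S V β g η m hS hV p hp r hr
  classical
  obtain ⟨τ, hw, hdg, hA, hAj, hcc⟩ := hV.low p hp
  have hrt : ∀ y, 0 ≤ S.rt p y := fun y =>
    Finset.sum_nonneg fun r' _ => mul_nonneg (hS.nn p hp r')
      (Finset.sum_nonneg fun i _ => hS.nnC r' i y)
  have hprod : ∀ τ', DNn ((∏ j ∈ range p, ∏ i, V.cc τ' (r j) i) * ∏ j ∈ Ico p S.N, V.A τ' j) := by
    intro τ'
    refine DNn.mul (DNn.prod fun j _ => DNn.prod fun i _ => hV.nnc τ' (r j) i)
      (DNn.prod fun j hj => hV.nnA τ' j (Finset.mem_Ico.1 hj).2)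
  have h1 : V.w τ * coeff (V.dg τ)
      ((∏ j ∈ range p, ∏ i, V.cc τ (r j) i) * ∏ j ∈ Ico p S.N, V.A τ j).snd ≤ V.Ψ p r := by
    unfold Pot.Ψ
    exact Finset.single_le_sum (f := fun τ' => V.w τ' * coeff (V.dg τ')
      ((∏ j ∈ range p, ∏ i, V.cc τ' (r j) i) * ∏ j ∈ Ico p S.N, V.A τ' j).snd)
      (fun τ' _ => mul_nonneg (hV.w_nn τ') ((hprod τ').2 _)) (Finset.mem_univ τ)
  refine le_trans ?_ h1
  rw [hw, hdg, one_mul, ← hLIN]
  have hlinB : ∀ j < S.N, DNn (lin (ld (S.rt p) (S.ρB j))) := fun j hj =>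
    DNn.lin (ld_nonneg hrt (hS.nnB j hj))
  have hlinC : ∀ r' i, DNn (lin (ld (S.rt p) (S.ρC r' i))) := fun r' i =>
    DNn.lin (ld_nonneg hrt (hS.nnC r' i))
  have hobj : eps * ∏ o ∈ S.obj p, lin (ld (S.rt p) (S.vec r o)) =
      (∏ j ∈ range p, ∏ i, lin (ld (S.rt p) (S.ρC (r j) i))) *
        (eps * ∏ j ∈ Ioo p S.N, lin (ld (S.rt p) (S.ρB j))) := by
    unfold Stage.obj
    rw [Finset.prod_disjSum, Finset.prod_product]
    simp only [Stage.vec, Sum.elim_inl, Sum.elim_inr]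
    ring
  rw [hobj]
  have hIco : Ico p S.N = insert p (Ioo p S.N) := by
    ext x
    simp only [Finset.mem_Ico, Finset.mem_insert, Finset.mem_Ioo]
    omega
  rw [hIco, Finset.prod_insert (by simp)]
  refine (DLe.mul (DNn.prod fun j _ => DNn.prod fun i _ => hlinC (r j) i) ?_ ?_ ?_).2 m
  · refine DNn.mul (hV.nnA τ p hp) (DNn.prod fun j hj => hV.nnA τ j (Finset.mem_Ioo.1 hj).2)
  · refine DLe.prod (fun j _ => DNn.prod fun i _ => hlinC (r j) i) fun j hj => ?_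
    refine DLe.prod (fun i _ => hlinC (r j) i) fun i _ => ?_
    have hj' : j < p := Finset.mem_range.1 hj
    exact hcc j (hj'.trans hp) (r j) i (hr j hj').2
  · refine DLe.mul DNn.eps (DNn.prod fun j hj => hV.nnA τ j (Finset.mem_Ioo.1 hj).2) hA ?_
    refine DLe.prod (fun j hj => hlinB j (Finset.mem_Ioo.1 hj).2) fun j hj => ?_
    have := Finset.mem_Ioo.1 hj
    exact hAj j this.2 (by omega)

end Pool.Agent.H79.AT
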