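import Pool.Agent.H67.AT.Targets

/-! Row PAK of `hat_modules`: the choice of `k`, `L`, `D`. -/

set_option autoImplicit false

open Finset Filter Pool.Agent.H67.AT

namespace Pool.Agent.H79.AT

theorem pf_PAK : T_PAK := by
  intro c₀ hc
  obtain ⟨A, hA⟩ : ∃ A : ℕ, A = ⌈20 / c₀⌉₊ := ⟨_, rfl⟩
  have hA1 : 20 / c₀ ≤ (A : ℝ) := by
    rw [hA]
    exact Nat.le_ceil _
  have hA0 : 1 ≤ A := by
    rw [hA]
    exact Nat.ceil_pos.2 (by positivity)
  refine ⟨A + 1, 2 * (A + 1) + 1, fun k₀ => ?_⟩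
  have hlim : Tendsto (fun N : ℕ => (N : ℝ) ^ (c₀ / 20)) atTop atTop :=
    (tendsto_rpow_atTop (by positivity)).comp tendsto_natCast_atTop_atTop
  obtain ⟨N₀, hN₀⟩ := (tendsto_atTop_atTop.1 hlim) ((max k₀ (2 ^ A) : ℕ) : ℝ)
  refine ⟨N₀, fun N hN => ?_⟩
  have hN1 := hN₀ N hN
  obtain ⟨k, hk⟩ : ∃ k : ℕ, k = ⌊(N : ℝ) ^ (c₀ / 20)⌋₊ := ⟨_, rfl⟩
  have hk1 : max k₀ (2 ^ A) ≤ k := by
    rw [hk]
    exact Nat.le_floor hN1
  have hkk0 : k₀ ≤ k := (le_max_left _ _).trans hk1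
  have hk2 : 2 ^ A ≤ k := (le_max_right _ _).trans hk1
  have hk3 : 2 ≤ k := by
    refine le_trans ?_ hk2
    calc 2 = 2 ^ 1 := rfl
      _ ≤ 2 ^ A := Nat.pow_le_pow_right (by norm_num) hA0
  have hkpos : (0 : ℝ) < k := by
    have : 0 < k := by omega
    exact_mod_cast this
  have hNn : (0 : ℝ) ≤ N := Nat.cast_nonneg N
  have hle : (k : ℝ) ≤ (N : ℝ) ^ (c₀ / 20) := by
    rw [hk]
    exact Nat.floor_le (Real.rpow_nonneg hNn _)
  have hlt : (N : ℝ) ^ (c₀ / 20) < k + 1 := by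
    rw [hk]
    exact Nat.lt_floor_add_one _
  have hNk : N ≤ k ^ (A + 1) := by
    have h1 : (N : ℝ) = ((N : ℝ) ^ (c₀ / 20)) ^ (20 / c₀) := by
      rw [← Real.rpow_mul hNn]
      have : c₀ / 20 * (20 / c₀) = 1 := by
        field_simp
      rw [this, Real.rpow_one]
    have h2 : (N : ℝ) ≤ (2 * k) ^ (20 / c₀) := by
      rw [h1]
      refine Real.rpow_le_rpow (Real.rpow_nonneg hNn _) ?_ (by positivity)
      have : (1 : ℝ) ≤ k := by
        have : 1 ≤ k := by omega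
        exact_mod_cast this
      linarith
    have h3 : (2 * (k : ℝ)) ^ (20 / c₀) ≤ (2 * k) ^ (A : ℝ) := by
      refine Real.rpow_le_rpow_of_exponent_le ?_ hA1
      have : (1 : ℝ) ≤ k := by
        have : 1 ≤ k := by omega
        exact_mod_cast this
      linarith
    rw [Real.rpow_natCast] at h3
    have h4 : (N : ℝ) ≤ ((2 * k) ^ A : ℕ) := by
      push_cast
      exact h2.trans h3
    have h5 : N ≤ (2 * k) ^ A := by exact_mod_cast h4
    refine h5.trans ?_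
    rw [mul_pow, pow_succ, mul_comm (k ^ A)]
    exact Nat.mul_le_mul_right _ hk2
  refine ⟨k, hkk0, by omega, ?_, hNk, ?_⟩
  · have h1 : (k : ℝ) ^ 20 ≤ (N : ℝ) ^ c₀ := by
      calc (k : ℝ) ^ 20 ≤ ((N : ℝ) ^ (c₀ / 20)) ^ 20 := pow_le_pow_left₀ hkpos.le hle 20
        _ = (N : ℝ) ^ c₀ := by
          rw [← Real.rpow_natCast, ← Real.rpow_mul hNn]
          congr 1
          push_cast
          ring
    rw [Real.rpow_neg hNn, ← one_div]
    exact one_div_le_one_div_of_le (by positivity) h1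
  · have h1 : 1 ≤ k ^ (A + 1) := Nat.one_le_pow _ _ (by omega)
    calc N * (k ^ (A + 1) + 1) ≤ k ^ (A + 1) * (k ^ (A + 1) + k ^ (A + 1)) :=
          Nat.mul_le_mul hNk (by omega)
      _ = 2 * k ^ (2 * (A + 1)) := by ring
      _ ≤ k * k ^ (2 * (A + 1)) := Nat.mul_le_mul_right _ hk3
      _ = k ^ (2 * (A + 1) + 1) := by ring

end Pool.Agent.H79.AT
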