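import Pool.Agent.H83.AT.Targets

/-!
Module CS of board at_modules: further properties of `A_U`.
-/

open CategoryTheory CategoryTheory.Limits TopologicalSpace Topology Set Opposite

namespace Pool.Agent.H79.AT

open Pool.Agent.H96.AL Pool.Agent.H85.AU Pool.Agent.H83.AT

lemma bij_of_zero {F : Type} [Field F] {M N : Type} [AddCommGroup M] [Module F M]
    [AddCommGroup N] [Module F N] (f : M →ₗ[F] N) (hM : ∀ g : M, g = 0) (hN : ∀ g : N, g = 0) :
    Function.Bijective f :=
  ⟨fun a b _ => by rw [hM a, hM b], fun b => ⟨0, by rw [hN b, map_zero]⟩⟩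

lemma bij_cutMap {F : Type} [Field F] {X : TopCat.{0}} {U V : Opens X} (h : U ≤ V) {A B : Sh F X}
    (f : A ⟶ B) {x : X} (hU : x ∈ U) (hf : Function.Bijective (sm f x)) :
    Function.Bijective (sm (cutMap h f) x) := by
  have h1 : Function.Bijective (sm (cutMap h f ≫ ic V B) x) := by
    rw [cutMap_ic]
    have : (sm (ic U A ≫ f) x : Stk (cutSh U A) x → Stk B x) =
        (sm f x : Stk A x → Stk B x) ∘ (sm (ic U A) x : Stk (cutSh U A) x → Stk A x) := by
      funext s; exact sm_comp (ic U A) f x s
    rw [this]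
    exact hf.comp (sm_ic_bij A hU)
  have h2 : (sm (cutMap h f ≫ ic V B) x : Stk (cutSh U A) x → Stk B x) =
      (sm (ic V B) x : Stk (cutSh V B) x → Stk B x) ∘
        (sm (cutMap h f) x : Stk (cutSh U A) x → Stk (cutSh V B) x) := by
    funext s; exact sm_comp (cutMap h f) (ic V B) x s
  rw [h2] at h1
  exact (Function.Bijective.of_comp_iff' (sm_ic_bij B (h hU)) _).1 h1

theorem cs : T_CS := by
  intro F _ X
  refine ⟨?_, ?_, ?_, ?_⟩
  · have : ∀ A : Sh F X, IsIso ((icN (F := F) (⊤ : Opens X)).app A) := by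
      intro A
      show IsIso (ic ⊤ A)
      rw [isIso_iff]
      intro x
      exact sm_ic_bij A (Opens.mem_top x)
    exact NatIso.isIso_of_isIso_app _
  · intro A
    rw [IsZero.iff_id_eq_zero]
    apply hom_ext
    intro x s
    rw [stk_cut_eq_zero (U := (⊥ : Opens X)) A (fun h => h) s, map_zero, map_zero]
  · intro U V hUV A
    rw [isIso_iff]
    intro x
    by_cases hx : x ∈ U
    · exact bij_cutMap _ _ hx (sm_ic_bij A (hUV hx))
    · exact bij_of_zero _ (stk_cut_eq_zero _ hx) (stk_cut_eq_zero _ hx)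
  · intro U V A
    rw [isIso_iff]
    intro x
    by_cases hx : x ∈ U ⊓ V
    · refine bij_cutMap _ _ hx ?_
      have : (sm (𝟙 (cutSh V A)) x : Stk (cutSh V A) x → Stk (cutSh V A) x) = id := by
        funext s; exact sm_id _ x s
      rw [this]; exact Function.bijective_id
    · refine bij_of_zero _ (stk_cut_eq_zero _ hx) ?_
      intro g
      by_cases hU : x ∈ U
      · have hV : x ∉ V := fun h => hx ⟨hU, h⟩
        apply sm_ic_inj U (cutSh V A) x
        rw [map_zero]
        exact stk_cut_eq_zero _ hV _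
      · exact stk_cut_eq_zero _ hU g

end Pool.Agent.H79.AT
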