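import Pool.Agent.H83.AT.Targets

/-!
Module KU of board at_modules: sections of `A` over `U` are morphisms `F_U → A`.
-/

open CategoryTheory CategoryTheory.Limits TopologicalSpace Topology Set Opposite

namespace Pool.Agent.H79.AT

open Pool.Agent.H96.AL Pool.Agent.H85.AU Pool.Agent.H83.AT

/-- every germ of `F_U` at a point of `U` is a multiple of the germ of the unit section -/
lemma ku_germ (hKK : T_KK) {F : Type} [Field F] {X : TopCat.{0}} (U : Opens X) {x : X}
    (hx : x ∈ U) (g : Stk (cutSh U (one F X)) x) :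
    ∃ c : F, g = c • gm (cutSh U (one F X)) hx (eU F U) := by
  obtain ⟨v, hv⟩ := ((hKK F X (ModuleCat.of F F)).1 x (Opens.mem_top x)).2
    (sm (ic U (one F X)) x g)
  change F at v
  have hv : gm (one F X) (Opens.mem_top x) (kc F X (ModuleCat.of F F) v) =
    sm (ic U (one F X)) x g := hv
  refine ⟨v, ?_⟩
  apply sm_ic_inj U (one F X) x
  rw [map_smul, ← gm_ap, ap_ic_eU, gm_rs, ← hv]
  have h1 : (kc F X (ModuleCat.of F F)) v = v • e1 F X := by
    have h2 := (kc F X (ModuleCat.of F F)).map_smul v (1 : F)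
    have h3 : v • (1 : F) = v := mul_one v
    rw [h3] at h2
    exact h2
  rw [h1, map_smul]

lemma eta_inj (hPS : T_PS) {F : Type} [Field F] {X : TopCat.{0}} (U : Opens X) (A : Sh F X)
    {a b : Sec A U} (h : ps (inc U) A U a = ps (inc U) A U b) : a = b := by
  apply sec_ext A
  intro x hx
  have h1 := sg_gm (inc U) A (⟨x, hx⟩ : osp U) (V := U) hx a
  have h2 := sg_gm (inc U) A (⟨x, hx⟩ : osp U) (V := U) hx b
  apply (hPS F X (osp U) (inc U) A ⟨x, hx⟩).1
  refine h1.trans (Eq.trans ?_ h2.symm)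
  rw [h]

theorem ku (hKK : T_KK) (hUI : T_UI) (hPS : T_PS) : T_KU := by
  intro F _ X U A
  constructor
  · intro φ ψ h
    have h : ap φ U (eU F U) = ap ψ U (eU F U) := h
    apply hom_ext
    intro x s
    by_cases hx : x ∈ U
    · obtain ⟨c, rfl⟩ := ku_germ hKK U hx s
      rw [map_smul, map_smul, ← gm_ap, ← gm_ap, h]
    · rw [stk_cut_eq_zero _ hx s, map_zero, map_zero]
  · intro s
    have hI := hUI F X U A
    have hle : pre (inc U) ⊤ ≤ pre (inc U) U := fun y _ => y.2
    have hle' : pre (inc U) U ≤ pre (inc U) ⊤ := fun y _ => trivial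
    obtain ⟨φ1, hφ1⟩ := (hKK F X (ModuleCat.of F F)).2
      ((pf F (inc U)).obj ((pb F (inc U)).obj A))
      (LinearMap.toSpanSingleton F (Sec ((pf F (inc U)).obj ((pb F (inc U)).obj A)) ⊤)
        (rs ((pb F (inc U)).obj A) hle (ps (inc U) A U s)))
    have hφ1' : ap φ1 ⊤ (e1 F X) = rs ((pb F (inc U)).obj A) hle (ps (inc U) A U s) := by
      have := hφ1 (1 : F)
      refine this.trans ?_
      exact one_smul F _
    refine ⟨cutMap le_rfl φ1 ≫ inv (cutMap le_rfl ((pa F (inc U)).unit.app A)) ≫ ic U A, ?_⟩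
    show ap (cutMap le_rfl φ1 ≫ inv (cutMap le_rfl ((pa F (inc U)).unit.app A)) ≫ ic U A) U
      (eU F U) = s
    rw [← Category.assoc, ap_comp]
    obtain ⟨v, hv⟩ : ∃ v, v = ap (cutMap le_rfl φ1 ≫
      inv (cutMap le_rfl ((pa F (inc U)).unit.app A))) U (eU F U) := ⟨_, rfl⟩
    rw [← hv]
    have h1 : ap (cutMap le_rfl ((pa F (inc U)).unit.app A)) U v =
        ap (cutMap le_rfl φ1) U (eU F U) := by
      rw [hv, ← ap_comp, Category.assoc, IsIso.inv_hom_id, Category.comp_id]
    have h2 := congrArg (ap (ic U ((pf F (inc U)).obj ((pb F (inc U)).obj A))) U) h1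
    have h5 : ap ((pa F (inc U)).unit.app A) U (ap (ic U A) U v) =
        ap φ1 U (ap (ic U (one F X)) U (eU F U)) := h2
    rw [ap_ic_eU] at h5
    have h6 := rs_ap φ1 (le_top : U ≤ ⊤) (e1 F X)
    rw [hφ1'] at h6
    apply eta_inj hPS U A
    refine h5.trans (h6.symm.trans ?_)
    have h3 := rs_rs ((pb F (inc U)).obj A) hle' hle (ps (inc U) A U s)
    have h4 := rs_self ((pb F (inc U)).obj A) (hle'.trans hle) (ps (inc U) A U s)
    exact h3.trans h4

end Pool.Agent.H79.AT
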