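import Pool.Agent.H67.AT.Targets

/-! Row PAD of `hat_modules`: from paths of `k ^ L` steps to paths of `n` steps. -/

set_option autoImplicit false

open Finset Pool.Agent.H67.AT

namespace Pool.Agent.H79.AT

theorem pf_PAD (hPAN : T_PAN) (hPAK : T_PAK) (hEX0 : T_EX0) : T_PAD := by
  intro hCORE c₀ hc₀
  obtain ⟨L, D, hLD⟩ := hPAK c₀ hc₀
  obtain ⟨C, k₀, hC⟩ := hCORE L D
  obtain ⟨N₀, hN₀⟩ := hLD k₀
  refine ⟨max C 0, N₀, fun N hN => ?_⟩
  obtain ⟨k, hk, hk1, hkN, hNL, hND⟩ := hN₀ N hN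
  intro X E Y _ _ _ c n s f hX hE hn hnN hU hUr hs hs1 hmass hf
  obtain ⟨X', E', Y', _, _, _, _, _, _, G', s', f', hcX, hcY, hup, hum, hs', hs1', hmass', hf',
    hex, hwalk⟩ := hPAN X E Y c n (k ^ L) s f ((N : ℝ) ^ (-c₀)) hn (hnN.trans hNL)
      (Real.rpow_nonneg (Nat.cast_nonneg N) _) hU hUr hs hs1 hmass hf
  have hcX2 : Fintype.card X' ≤ k ^ D :=
    (hcX.trans (Nat.mul_le_mul_right _ hX)).trans hND
  have hcY2 : Fintype.card Y' ≤ k ^ D :=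
    (hcY.trans hE).trans ((Nat.le_mul_of_pos_right N (Nat.succ_pos _)).trans hND)
  have hup2 : ∀ x y, G'.up (k ^ L) x y ≤ 1 / (k : ℝ) ^ 20 := fun x y => (hup x y).trans hkN
  have hum2 : ∀ x y, G'.um (k ^ L) x y ≤ 1 / (k : ℝ) ^ 20 := fun x y => (hum x y).trans hkN
  have hx0 : 0 ≤ Pool.Agent.H66.SLP.exf c s n f := by
    unfold Pool.Agent.H66.SLP.exf
    refine Finset.sum_nonneg fun t _ => Finset.sum_nonneg fun x _ => Finset.sum_nonneg fun e _ => ?_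
    exact mul_nonneg (mul_nonneg (mul_nonneg (hs x) (c.P_nonneg _ _ _)) (c.wt_nonneg e)) (hf e)
  obtain ⟨x, hx⟩ : ∃ x, x = Pool.Agent.H66.SLP.exf c s n f := ⟨_, rfl⟩
  rw [← hx] at hx0 hex ⊢
  rcases hx0.eq_or_lt with h0 | h0
  · obtain ⟨l', hl1, hl2, hl3, hl4, -⟩ := hC k hk X' E' Y' G' s' (fun _ => 0) hcX2 hcY2 hup2 hum2
      hs' hs1' hmass' (fun _ => le_rfl) (by simp [Net.ex])
    obtain ⟨l, h1, h2, h3, h4, -⟩ := hwalk l' hl1 hl2 hl3 hl4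
    refine ⟨l, h1, h2, h3, h4, ?_⟩
    rw [hEX0 X E Y c n s f hs hf (by rw [← hx, ← h0]) l h1 h2 h3, ← h0, mul_zero]
  · have hexx : G'.ex s' (k ^ L) (fun e => f' e * x⁻¹) ≤ 1 := by
      have : G'.ex s' (k ^ L) (fun e => f' e * x⁻¹) = G'.ex s' (k ^ L) f' * x⁻¹ := by
        unfold Net.ex
        rw [Finset.sum_mul]
        refine Finset.sum_congr rfl fun t _ => ?_
        rw [Finset.sum_mul]
        refine Finset.sum_congr rfl fun z _ => ?_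
        rw [Finset.sum_mul]
        refine Finset.sum_congr rfl fun e _ => ?_
        ring
      rw [this, ← div_eq_mul_inv, div_le_one h0]
      exact hex
    obtain ⟨l', hl1, hl2, hl3, hl4, hl5⟩ := hC k hk X' E' Y' G' s' (fun e => f' e * x⁻¹) hcX2 hcY2
      hup2 hum2 hs' hs1' hmass' (fun e => mul_nonneg (hf' e) (inv_nonneg.2 h0.le)) hexx
    obtain ⟨l, h1, h2, h3, h4, h5⟩ := hwalk l' hl1 hl2 hl3 hl4
    refine ⟨l, h1, h2, h3, h4, h5.trans ?_⟩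
    rw [List.sum_map_mul_right, ← div_eq_mul_inv, div_le_iff₀ h0] at hl5
    exact hl5.trans (mul_le_mul_of_nonneg_right (le_max_left _ _) h0.le)

end Pool.Agent.H79.AT
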